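import Pool.Agent.V5helper99.DC.Defs

/-! Project DC, job J1: the exposed faces of the demicube. -/

namespace DC99

open Module

theorem t_J1 {n : ℕ} (l : StrongDual ℝ (E n)) :
    {x ∈ dc n | ∀ y ∈ dc n, l y ≤ l x} = hull (am l) := by
  classical
  obtain ⟨A0, hA0, hmax⟩ : ∃ A0 : Finset (Fin n), Even A0.card ∧
      ∀ B : Finset (Fin n), Even B.card → l (pt B) ≤ l (pt A0) := by
    obtain ⟨A0, h1, h2⟩ := Finset.exists_max_image
      ((Finset.univ : Finset (Finset (Fin n))).filter (fun A => Even A.card)) (fun A => l (pt A))
      ⟨∅, by simp⟩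
    exact ⟨A0, (Finset.mem_filter.1 h1).2, fun B hB => h2 B (Finset.mem_filter.2 ⟨Finset.mem_univ _, hB⟩)⟩
  have hlin : IsLinearMap ℝ (fun x : E n => l x) := ⟨fun x y => map_add l x y, fun c x => map_smul l c x⟩
  have hle : dc n ⊆ {y | l y ≤ l (pt A0)} := by
    refine convexHull_min ?_ (convex_halfSpace_le hlin _)
    rintro _ ⟨A, hA, rfl⟩
    exact hmax A hA
  have heq : hull (am l) ⊆ {y | l y = l (pt A0)} := by
    refine convexHull_min ?_ (convex_hyperplane hlin _)
    rintro _ ⟨A, hA, rfl⟩
    exact le_antisymm (hmax A hA.1) (hA.2 A0 hA0)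
  have hsub : hull (am l) ⊆ dc n := by
    refine convexHull_mono ?_
    rintro _ ⟨A, hA, rfl⟩
    exact ⟨A, hA.1, rfl⟩
  have hA0m : pt A0 ∈ dc n := subset_convexHull ℝ _ ⟨A0, hA0, rfl⟩
  apply Set.Subset.antisymm
  · rintro x ⟨hx, hxm⟩
    have hconv : Convex ℝ {x : E n | l x < l (pt A0) ∨ x ∈ hull (am l)} := by
      intro x hx y hy a b ha hb hab
      have hl : l (a • x + b • y) = a * l x + b * l y := by
        rw [map_add, map_smul, map_smul, smul_eq_mul, smul_eq_mul]
      rcases hx with hx | hx
      · rcases hy with hy | hy
        · left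
          exact convex_halfSpace_lt hlin _ hx hy ha hb hab
        · rcases eq_or_lt_of_le ha with h0 | h0
          · right
            subst h0
            have : b = 1 := by linarith
            rw [this, zero_smul, one_smul, zero_add]
            exact hy
          · left
            rw [hl]
            have h1 : l y = l (pt A0) := heq hy
            have h2 : a * l x < a * l (pt A0) := mul_lt_mul_of_pos_left hx h0
            have h3 : a * l (pt A0) + b * l (pt A0) = l (pt A0) := by rw [← add_mul, hab, one_mul]
            rw [h1]
            linarith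
      · rcases hy with hy | hy
        · rcases eq_or_lt_of_le hb with h0 | h0
          · right
            subst h0
            have : a = 1 := by linarith
            rw [this, zero_smul, one_smul, add_zero]
            exact hx
          · left
            rw [hl]
            have h1 : l x = l (pt A0) := heq hx
            have h2 : b * l y < b * l (pt A0) := mul_lt_mul_of_pos_left hy h0
            have h3 : a * l (pt A0) + b * l (pt A0) = l (pt A0) := by rw [← add_mul, hab, one_mul]
            rw [h1]
            linarith
        · right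
          exact convex_convexHull ℝ _ hx hy ha hb hab
    have hK : dc n ⊆ {x : E n | l x < l (pt A0) ∨ x ∈ hull (am l)} := by
      refine convexHull_min ?_ hconv
      rintro _ ⟨A, hA, rfl⟩
      rcases lt_or_ge (l (pt A)) (l (pt A0)) with h | h
      · left; exact h
      · right
        exact subset_convexHull ℝ _ ⟨A, ⟨hA, fun B hB => (hmax B hB).trans h⟩, rfl⟩
    rcases hK hx with h | h
    · exact absurd (hxm _ hA0m) (not_le.2 h)
    · exact h
  · intro x hx
    refine ⟨hsub hx, fun y hy => ?_⟩
    have h1 : l x = l (pt A0) := heq hx
    rw [h1]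
    exact hle hy

end DC99
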